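import Pool.Agent.Lib.MP_a3f657_nt.PR.Cnt

/-!
Every power of two is the order of the 2-Selmer group of a positive proportion of all elliptic
curves over `k(t)` in characteristic two.
-/

namespace Pool.Agent.Results.MP_a3f657_nt.EveryRankPositive

open Pool.Agent.Lib.MP_a3f657_nt.Two Filter

theorem result (k : Type) [Field k] [Fintype k] [CharP k 2] (r : ℕ) :
    ∃ δ : ℝ, 0 < δ ∧ ∀ᶠ d : ℕ in atTop, δ ≤ dens (k := k) (fun W => selOrder W = 2 ^ r) d :=
  Vir.pos_dens k r

end Pool.Agent.Results.MP_a3f657_nt.EveryRankPositive
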