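import Pool.Agent.Lib.MP_a3f657_nt.MB.Cnt

/-!
The high moments of the order of the 2-Selmer group over `k(t)` in characteristic two diverge.
-/

namespace Pool.Agent.Results.MP_a3f657_nt.MomentBlowUp

open Pool.Agent.Lib.MP_a3f657_nt.Two Filter Topology

theorem result (k : Type) [Field k] [Fintype k] [CharP k 2] (m : ℕ) (hm : 11 ≤ m) :
    Tendsto (fun d => ∑ᶠ n : ℕ, (n : ℝ) ^ m * dens (k := k) (fun W => selOrder W = n) d)
      atTop atTop :=
  Exc.MB.blow_up m hm

end Pool.Agent.Results.MP_a3f657_nt.MomentBlowUp
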