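import Pool.Agent.Lib.MP_a3f657_nt.WAll

/-!
The full limit law of the order of the 2-Selmer group for the curves
`y ^ 2 + x y = x ^ 3 + a x ^ 2 + b` over `k(t)`, `k` finite of characteristic two.
-/

namespace Pool.Agent.Variants.MP_a3f657_nt.SelmerLawOld

open Pool.Agent.Lib.MP_a3f657_nt.Two Polynomial

theorem result (k : Type) [Field k] [Fintype k] [CharP k 2] (r : ℕ) (ε : ℝ) (hε : 0 < ε) :
    ∃ M : ℕ, ∀ (a : k[X]) (n : ℕ), Odd a.natDegree → Odd n → M ≤ a.natDegree →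
      2 * a.natDegree + M * Nat.log 2 a.natDegree ≤ n → M * n ≤ (2 * M + 1) * a.natDegree →
      |(Set.ncard {b : k[X] | (Squarefree b ∧ b.natDegree = n) ∧ selOrder
            ((⟨1, a, 0, 0, b⟩ : WeierstrassCurve k[X]).baseChange (RatFunc k)) = 2 ^ r} : ℝ) /
          Set.ncard {b : k[X] | Squarefree b ∧ b.natDegree = n} -
        (∏' j : ℕ, (1 + (2 : ℝ)⁻¹ ^ j))⁻¹ * ∏ i ∈ Finset.range r, 2 / ((2 : ℝ) ^ (i + 1) - 1)| ≤
        ε := by
  classical
  refine (Win.lawAll k r ε hε).imp fun M h a n h1 h2 h3 h4 h5 => ?_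
  have e : ∀ b : k[X], (⟨1, a, 0, 0, b⟩ : WeierstrassCurve k[X]).baseChange (RatFunc k) =
      Win.EE a b := fun b => by
    simp [WeierstrassCurve.baseChange, WeierstrassCurve.map, Win.EE, EW, ι]
  convert h a n ⟨h1, h2, h3, h4, h5⟩ using 5
  · rw [← Set.ncard_coe_finset]
    congr 1
    ext b
    simp [Win.Err.mem_Om, e]
  · rw [← Set.ncard_coe_finset]
    congr 1
    ext b
    simp [Win.Err.mem_Om]
  · rfl

end Pool.Agent.Variants.MP_a3f657_nt.SelmerLawOld
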