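import Pool.Agent.Lib.MP_a3f657_nt.C2QThree
import Pool.Agent.Lib.MP_a3f657_nt.C2QBirk
import Pool.Agent.Lib.MP_a3f657_nt.C2QBad
import Pool.Agent.Lib.MP_a3f657_nt.C2QAvg
import Pool.Agent.Lib.MP_a3f657_nt.C2QLoc
import Pool.Agent.Lib.MP_a3f657_nt.C2QPar
import Pool.Agent.Lib.MP_a3f657_nt.C2QTail

/-!
The average size of the 2-Selmer group over `k(t)` in characteristic two, without the curves whose
`j`-invariant is a square.
-/

namespace Pool.Agent.Variants.MP_a3f657_nt.SelmerMeanOld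

open Pool.Agent.Lib.MP_a3f657_nt.Two Filter Topology

theorem result (k : Type) [Field k] [Fintype k] [CharP k 2] (S : Finset (ZMod 2)) :
    Tendsto (fun d => ∑ᶠ (m : ℕ) (_ : (Nat.log 2 m : ZMod 2) ∈ S), (m : ℝ) * dens (k := k)
      (fun W => ¬ IsSquare (W.c₄ ^ 3 / W.Δ) ∧ selOrder W = m) d) atTop (𝓝 (3 / 2 * S.card)) :=
  average_set avgRed (tail (param birk locModel) badForm) cellAn' S

end Pool.Agent.Variants.MP_a3f657_nt.SelmerMeanOld
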