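import Pool.Agent.Lib.MP_a3f657_nt.C2All

/-!
Equidistribution of the parity of the 2-Selmer rank over `k(t)`, `k` finite of characteristic two.
-/

namespace Pool.Agent.Variants.MP_a3f657_nt.SelmerParityOld

open Pool.Agent.Lib.MP_a3f657_nt.Two Filter Topology

theorem result (k : Type) [Field k] [Fintype k] [CharP k 2] (e : ZMod 2) :
    Tendsto (dens (k := k) fun W => ∃ n : ℕ, selOrder W = 2 ^ n ∧ (n : ZMod 2) = e) atTop
      (𝓝 (1 / 2)) :=
  parity_dens cellRed cellAn' e

end Pool.Agent.Variants.MP_a3f657_nt.SelmerParityOld
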