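import Pool.Agent.Lib.MP_a3f657_nt.C3All

/-!
Equidistribution of the parity of the 3-Selmer rank over `k(t)`, `k` finite of characteristic
three.
-/

namespace Pool.Agent.Variants.MP_a3f657_nt.SelmerParityThreeOld

open Pool.Agent.Lib.MP_a3f657_nt.Two Pool.Agent.Lib.MP_a3f657_nt.Three Filter Topology

theorem result (k : Type) [Field k] [Fintype k] [CharP k 3] (e : ZMod 2) :
    Tendsto (dens (k := k) fun W => ∃ n : ℕ, selThree W = 3 ^ n ∧ (n : ZMod 2) = e) atTop
      (𝓝 (1 / 2)) :=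
  Pool.Agent.Lib.MP_a3f657_nt.Three.parity_dens cellRed' Pool.Agent.Lib.MP_a3f657_nt.Three.cellAn' k e

end Pool.Agent.Variants.MP_a3f657_nt.SelmerParityThreeOld
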