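import Pool.Agent.Lib.MP_a3f657_nt.Final

/-!
In the height-ordered families of elliptic curves over the rationals with a rational point of
order 4, 8 or 12, the 2-rank of the Tate-Shafarevich group has normal order `(log log X) / 2`,
with mean deviation `O (sqrt (log log X))`.
-/

namespace Pool.Agent.Variants.MP_a3f657_nt.ShaTwoRankTorsionOld

open Pool.Agent.Lib.MP_a3f657_nt

theorem result (n : ℕ) (hn : n = 4 ∨ n = 8 ∨ n = 12) :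
    ∃ C : ℝ, ∀ᶠ X : ℕ in Filter.atTop, ∃ S : Finset (ℤ × ℤ),
      (∀ A B : ℤ, (A, B) ∈ S ↔
        4 * A ^ 3 + 27 * B ^ 2 ≠ 0 ∧
        (∀ p : ℕ, p.Prime → ¬((p : ℤ) ^ 4 ∣ A ∧ (p : ℤ) ^ 6 ∣ B)) ∧
        max (|A| ^ 3) (B ^ 2) ≤ (X : ℤ) ∧
        ∃ P : (⟨0, 0, 0, (A : ℚ), (B : ℚ)⟩ : WeierstrassCurve ℚ).toAffine.Point,
          addOrderOf P = n) ∧
      S.Nonempty ∧
      (∀ x ∈ S, (ShaTwo ⟨0, 0, 0, (x.1 : ℚ), (x.2 : ℚ)⟩).Finite) ∧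
      ∑ x ∈ S, |Real.logb 2 (ShaTwo ⟨0, 0, 0, (x.1 : ℚ), (x.2 : ℚ)⟩).ncard -
          Real.log (Real.log X) / 2| ≤ C * √(Real.log (Real.log X)) * S.card := by
  classical
  open Pool.Agent.Lib.MP_788af2_nt in
  have key : ∃ C : ℝ, ∀ᶠ X : ℕ in Filter.atTop, ∀ S, SX 1 n X ⊆ S → S ⊆ SX 1 n (27 * X) →
      S.Nonempty ∧ (∀ x ∈ S, (ShaTwo (Lib.MP_a3f657_nt.wc 0 x.1 x.2)).Finite) ∧
      ∑ x ∈ S, |Real.logb 2 (ShaTwo (Lib.MP_a3f657_nt.wc 0 x.1 x.2)).ncard -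
        Real.log (Real.log X) / 2| ≤ C * √(Real.log (Real.log X)) * S.card := by
    rcases hn with rfl | rfl | rfl
    exacts [final param4 mu4, final param8 mu8, final param12 mu12]
  obtain ⟨C, hC⟩ := key
  open Pool.Agent.Lib.MP_788af2_nt in
  refine ⟨C, hC.mono fun X h => ⟨(SX 1 n (27 * X)).filter fun x => max (|x.1| ^ 3) (x.2 ^ 2) ≤ X,
    fun A B => ?_, h _ (fun x hx => ?_) (Finset.filter_subset _ _)⟩⟩
  · rw [Finset.mem_filter, Lib.MP_788af2_nt.mem_SX]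
    refine ⟨fun ⟨⟨h1, h2, _, h3⟩, h4⟩ => ⟨h1, h2, h4, ?_⟩, fun ⟨h1, h2, h3, P, h4⟩ =>
      ⟨⟨h1, h2, ?_, Lib.MP_788af2_nt.has_one (by omega) h4⟩, h3⟩⟩
    · obtain ⟨P, Q, h5⟩ := h3.exists
      have h6 : ∀ j, j • Q = 0 ↔ n ∣ j := fun j => by simpa using h5 0 j
      exact ⟨Q, Nat.dvd_antisymm (addOrderOf_dvd_iff_nsmul_eq_zero.2 ((h6 n).2 dvd_rfl))
        ((h6 _).1 (addOrderOf_nsmul_eq_zero Q))⟩
    · have := pow_nonneg (abs_nonneg A) 3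
      rw [max_le_iff] at h3 ⊢
      push_cast
      omega
  · obtain ⟨h1, h2, h3, h4⟩ := Lib.MP_788af2_nt.mem_SX.1 hx
    have := pow_nonneg (abs_nonneg x.1) 3
    have := sq_nonneg x.2
    rw [max_le_iff] at h3
    refine Finset.mem_filter.2 ⟨Lib.MP_788af2_nt.mem_SX.2 ⟨h1, h2, ?_, h4⟩, ?_⟩ <;>
      rw [max_le_iff] <;> push_cast <;> omega

end Pool.Agent.Variants.MP_a3f657_nt.ShaTwoRankTorsionOld
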